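import Pool.Agent.Helper82.BR.St3

/-!
# Project BR8, module NA2
-/

set_option autoImplicit false

namespace Pool.Agent.Helper7.BR

open Pool.Agent.Helper82.BR

private lemma two {T : Finset ℂ} (hR : Rich T) {p q : ℂ} (hp : p ∈ T) (hq : q ∈ T) (hne : p ≠ q) :
    ∃ s ∈ T, ∃ s' ∈ T, s ≠ s' ∧
      (s.re - p.re) ^ 2 + (s.im - p.im) ^ 2 = (s.re - q.re) ^ 2 + (s.im - q.im) ^ 2 ∧
      (s'.re - p.re) ^ 2 + (s'.im - p.im) ^ 2 = (s'.re - q.re) ^ 2 + (s'.im - q.im) ^ 2 := by
  have h1 := hR p hp q hq hne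
  obtain ⟨s, hs, s', hs', hss⟩ := Finset.one_lt_card.1 h1
  rw [Finset.mem_filter] at hs hs'
  have key : ∀ u : ℂ, dist u p = dist u q →
      (u.re - p.re) ^ 2 + (u.im - p.im) ^ 2 = (u.re - q.re) ^ 2 + (u.im - q.im) ^ 2 := by
    intro u hu
    rw [Complex.dist_eq, Complex.dist_eq] at hu
    have h2 : ‖u - p‖ ^ 2 = ‖u - q‖ ^ 2 := by rw [hu]
    rw [Complex.sq_norm, Complex.sq_norm, Complex.normSq_apply, Complex.normSq_apply] at h2
    simp only [Complex.sub_re, Complex.sub_im] at h2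
    linear_combination h2
  exact ⟨s, hs.1, s', hs'.1, hss, key s hs.2, key s' hs'.2⟩

private lemma core (T : Finset ℂ) (h y2 y4 : ℝ) (hh : h ≠ 0) (h2 : y2 ≠ 0) (h4 : y4 ≠ 0)
    (h12 : h ≠ y2) (h34 : h ≠ y4) (hR : Rich T)
    (hT : ∀ z : ℂ, z ∈ T ↔ z = ⟨-1, 0⟩ ∨ z = ⟨0, 0⟩ ∨ z = ⟨1, 0⟩ ∨ z = ⟨0, 2 * h⟩ ∨
      z = ⟨-1/2, h⟩ ∨ z = ⟨-1/2, y2⟩ ∨ z = ⟨1/2, h⟩ ∨ z = ⟨1/2, y4⟩) : False := by
  have m0 : (⟨0, 0⟩ : ℂ) ∈ T := (hT _).2 (by simp)
  have m0' : (⟨0, 2 * h⟩ : ℂ) ∈ T := (hT _).2 (by simp)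
  have m1 : (⟨-1/2, h⟩ : ℂ) ∈ T := (hT _).2 (by simp)
  have m2 : (⟨-1/2, y2⟩ : ℂ) ∈ T := (hT _).2 (by simp)
  have m3 : (⟨1/2, h⟩ : ℂ) ∈ T := (hT _).2 (by simp)
  have m4 : (⟨1/2, y4⟩ : ℂ) ∈ T := (hT _).2 (by simp)
  have hsq : 0 < h ^ 2 := by positivity
  -- left pair
  have hl : y2 = -h ∨ (y2 = 3 * h ∧ y4 = 2 * h) := by
    obtain ⟨s, hs, s', hs', hss, e, e'⟩ := two hR m1 m2 (by
      intro hc
      exact h12 (congrArg Complex.im hc))
    have key : ∀ u : ℂ, u ∈ T →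
        (u.re - (-1/2)) ^ 2 + (u.im - h) ^ 2 = (u.re - (-1/2)) ^ 2 + (u.im - y2) ^ 2 →
        u.im = (h + y2) / 2 := by
      intro u _ hu
      have : (y2 - h) * (2 * u.im - (h + y2)) = 0 := by linear_combination hu
      rcases mul_eq_zero.1 this with h5 | h5
      · exact absurd (by linarith) h12
      · linarith
    have k1 := key s hs e
    have k2 := key s' hs' e'
    by_cases hc : y2 = -h
    · exact Or.inl hc
    · right
      have cl : ∀ u : ℂ, u ∈ T → u.im = (h + y2) / 2 →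
          (u = ⟨0, 2 * h⟩ ∧ 2 * h = (h + y2) / 2) ∨ (u = ⟨1/2, y4⟩ ∧ y4 = (h + y2) / 2) := by
        intro u hu hu'
        rcases (hT u).1 hu with rfl | rfl | rfl | rfl | rfl | rfl | rfl | rfl
        · exact absurd (by simp only at hu'; linarith) hc
        · exact absurd (by simp only at hu'; linarith) hc
        · exact absurd (by simp only at hu'; linarith) hc
        · exact Or.inl ⟨rfl, hu'⟩
        · exact absurd (by simp only at hu'; linarith) h12
        · exact absurd (by simp only at hu'; linarith) h12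
        · exact absurd (by simp only at hu'; linarith) h12
        · exact Or.inr ⟨rfl, hu'⟩
      rcases cl s hs k1 with ⟨a1, a2⟩ | ⟨a1, a2⟩ <;> rcases cl s' hs' k2 with ⟨b1, b2⟩ | ⟨b1, b2⟩
      · exact absurd (a1.trans b1.symm) hss
      · exact ⟨by linarith, by linarith⟩
      · exact ⟨by linarith, by linarith⟩
      · exact absurd (a1.trans b1.symm) hss
  have hr : y4 = -h ∨ (y4 = 3 * h ∧ y2 = 2 * h) := by
    obtain ⟨s, hs, s', hs', hss, e, e'⟩ := two hR m3 m4 (by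
      intro hc
      exact h34 (congrArg Complex.im hc))
    have key : ∀ u : ℂ, u ∈ T →
        (u.re - (1/2)) ^ 2 + (u.im - h) ^ 2 = (u.re - (1/2)) ^ 2 + (u.im - y4) ^ 2 →
        u.im = (h + y4) / 2 := by
      intro u _ hu
      have : (y4 - h) * (2 * u.im - (h + y4)) = 0 := by linear_combination hu
      rcases mul_eq_zero.1 this with h5 | h5
      · exact absurd (by linarith) h34
      · linarith
    have k1 := key s hs e
    have k2 := key s' hs' e'
    by_cases hc : y4 = -h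
    · exact Or.inl hc
    · right
      have cl : ∀ u : ℂ, u ∈ T → u.im = (h + y4) / 2 →
          (u = ⟨0, 2 * h⟩ ∧ 2 * h = (h + y4) / 2) ∨ (u = ⟨-1/2, y2⟩ ∧ y2 = (h + y4) / 2) := by
        intro u hu hu'
        rcases (hT u).1 hu with rfl | rfl | rfl | rfl | rfl | rfl | rfl | rfl
        · exact absurd (by simp only at hu'; linarith) hc
        · exact absurd (by simp only at hu'; linarith) hc
        · exact absurd (by simp only at hu'; linarith) hc
        · exact Or.inl ⟨rfl, hu'⟩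
        · exact absurd (by simp only at hu'; linarith) h34
        · exact Or.inr ⟨rfl, hu'⟩
        · exact absurd (by simp only at hu'; linarith) h34
        · exact absurd (by simp only at hu'; linarith) h34
      rcases cl s hs k1 with ⟨a1, a2⟩ | ⟨a1, a2⟩ <;> rcases cl s' hs' k2 with ⟨b1, b2⟩ | ⟨b1, b2⟩
      · exact absurd (a1.trans b1.symm) hss
      · exact ⟨by linarith, by linarith⟩
      · exact ⟨by linarith, by linarith⟩
      · exact absurd (a1.trans b1.symm) hss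
  have hlr : y2 = -h ∧ y4 = -h := by
    rcases hl with a | ⟨a, b⟩ <;> rcases hr with c | ⟨c, d⟩
    · exact ⟨a, c⟩
    · exact absurd (show h = 0 by linarith) hh
    · exact absurd (show h = 0 by linarith) hh
    · exact absurd (show h = 0 by linarith) hh
  obtain ⟨rfl, rfl⟩ := hlr
  -- the pair 0, (1/2, h)
  have hv : h ^ 2 = 3 / 4 ∨ h ^ 2 = 1 / 12 := by
    obtain ⟨s, hs, s', hs', hss, e, e'⟩ := two hR m0 m3 (by
      intro hc
      have := congrArg Complex.re hc
      norm_num at this)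
    rcases (hT s).1 hs with rfl | rfl | rfl | rfl | rfl | rfl | rfl | rfl <;> simp only at e
    · exfalso; nlinarith
    · exfalso; nlinarith
    · left; linarith
    · right; linarith
    · left; linarith
    · exfalso; nlinarith
    · exfalso; nlinarith
    · right; linarith
  rcases hv with hv | hv
  · -- the pair (0, 2h), (1/2, h)
    obtain ⟨s, hs, s', hs', hss, e, e'⟩ := two hR m0' m3 (by
      intro hc
      have := congrArg Complex.re hc
      norm_num at this)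
    have cl : ∀ u : ℂ, u ∈ T →
        (u.re - 0) ^ 2 + (u.im - 2 * h) ^ 2 = (u.re - 1/2) ^ 2 + (u.im - h) ^ 2 →
        u = ⟨-1/2, h⟩ := by
      intro u hu hu'
      rcases (hT u).1 hu with rfl | rfl | rfl | rfl | rfl | rfl | rfl | rfl <;> simp only at hu'
      · exfalso; nlinarith
      · exfalso; nlinarith
      · exfalso; nlinarith
      · exfalso; nlinarith
      · rfl
      · exfalso; nlinarith
      · exfalso; nlinarith
      · exfalso; nlinarith
    exact hss ((cl s hs e).trans (cl s' hs' e').symm)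
  · obtain ⟨s, hs, s', hs', hss, e, e'⟩ := two hR m0 m4 (by
      intro hc
      have := congrArg Complex.re hc
      norm_num at this)
    have cl : ∀ u : ℂ, u ∈ T →
        (u.re - 0) ^ 2 + (u.im - 0) ^ 2 = (u.re - 1/2) ^ 2 + (u.im - -h) ^ 2 →
        u = ⟨1/2, h⟩ := by
      intro u hu hu'
      rcases (hT u).1 hu with rfl | rfl | rfl | rfl | rfl | rfl | rfl | rfl <;> simp only at hu'
      · exfalso; nlinarith
      · exfalso; nlinarith
      · exfalso; nlinarith
      · exfalso; nlinarith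
      · exfalso; nlinarith
      · exfalso; nlinarith
      · rfl
      · exfalso; nlinarith
    exact hss ((cl s hs e).trans (cl s' hs' e').symm)

/-- MODULE NA2. -/
theorem hNA2 : StNA2 := by
  intro T y0 y1 y2 y3 y4 h0 h1 h2 h3 h4 h12 h34 hR hT
  have m0 : (⟨0, 0⟩ : ℂ) ∈ T := (hT _).2 (by simp)
  have m0' : (⟨0, y0⟩ : ℂ) ∈ T := (hT _).2 (by simp)
  obtain ⟨s, hs, s', hs', hss, e, e'⟩ := two hR m0 m0' (by
    intro hc
    exact h0 (congrArg Complex.im hc).symm)
  have key : ∀ u : ℂ,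
      (u.re - 0) ^ 2 + (u.im - 0) ^ 2 = (u.re - 0) ^ 2 + (u.im - y0) ^ 2 → u.im = y0 / 2 := by
    intro u hu
    have : y0 * (2 * u.im - y0) = 0 := by linear_combination hu
    rcases mul_eq_zero.1 this with h5 | h5
    · exact absurd h5 h0
    · linarith
  have cl : ∀ u : ℂ, u ∈ T → u.im = y0 / 2 →
      (u.re = -1/2 ∧ u.im = y0 / 2 ∧ (y1 = y0 / 2 ∨ y2 = y0 / 2)) ∨
      (u.re = 1/2 ∧ u.im = y0 / 2 ∧ (y3 = y0 / 2 ∨ y4 = y0 / 2)) := by
    intro u hu hu'
    rcases (hT u).1 hu with rfl | rfl | rfl | rfl | rfl | rfl | rfl | rfl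
    · exact absurd (by simp only at hu'; linarith) h0
    · exact absurd (by simp only at hu'; linarith) h0
    · exact absurd (by simp only at hu'; linarith) h0
    · exact absurd (by simp only at hu'; linarith) h0
    · exact Or.inl ⟨rfl, hu', Or.inl hu'⟩
    · exact Or.inl ⟨rfl, hu', Or.inr hu'⟩
    · exact Or.inr ⟨rfl, hu', Or.inl hu'⟩
    · exact Or.inr ⟨rfl, hu', Or.inr hu'⟩
  have hb : (y1 = y0 / 2 ∨ y2 = y0 / 2) ∧ (y3 = y0 / 2 ∨ y4 = y0 / 2) := by
    rcases cl s hs (key s e) with ⟨a1, a2, a3⟩ | ⟨a1, a2, a3⟩ <;>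
      rcases cl s' hs' (key s' e') with ⟨b1, b2, b3⟩ | ⟨b1, b2, b3⟩
    · exact absurd (Complex.ext (a1.trans b1.symm) (a2.trans b2.symm)) hss
    · exact ⟨a3, b3⟩
    · exact ⟨b3, a3⟩
    · exact absurd (Complex.ext (a1.trans b1.symm) (a2.trans b2.symm)) hss
  obtain ⟨hb1, hb2⟩ := hb
  have hy : ∃ h : ℝ, y0 = 2 * h := ⟨y0 / 2, by ring⟩
  obtain ⟨h, rfl⟩ := hy
  have e2 : 2 * h / 2 = h := by ring
  rw [e2] at hb1 hb2
  have hh : h ≠ 0 := fun hc => h0 (by rw [hc]; ring)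
  rcases hb1 with hb1 | hb1 <;> rcases hb2 with hb2 | hb2
  · rw [hb1] at h12 hT
    rw [hb2] at h34 hT
    exact core T h y2 y4 hh h2 h4 h12 h34 hR hT
  · rw [hb1] at h12 hT
    rw [hb2] at h34 hT
    exact core T h y2 y3 hh h2 h3 h12 h34.symm hR (fun z => by rw [hT z]; tauto)
  · rw [hb1] at h12 hT
    rw [hb2] at h34 hT
    exact core T h y1 y4 hh h1 h4 h12.symm h34 hR (fun z => by rw [hT z]; tauto)
  · rw [hb1] at h12 hT
    rw [hb2] at h34 hT
    exact core T h y1 y3 hh h1 h3 h12.symm h34.symm hR (fun z => by rw [hT z]; tauto)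

end Pool.Agent.Helper7.BR
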